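import Pool.Agent.QUD.StmtsR

/-!
# Squad QUD (MP_5b0138_an), row FCS

Two quadrilaterals with facing parallel sides at the same distance.
-/

set_option autoImplicit false

namespace Pool.Agent.QUD.H23

open MeasureTheory Complex Pool.Agent.H16Iso
open Pool.Agent.H1Gen (det CCW poly)

/-- the slant `arctan (|δ| / h)` -/
theorem slant (h δ : ℝ) (hh : 0 < h) :
    0 ≤ Real.arctan (|δ| / h) ∧ Real.arctan (|δ| / h) < Real.pi / 2 ∧
    1 / Real.cos (Real.arctan (|δ| / h)) = Real.sqrt (h ^ 2 + δ ^ 2) / h ∧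
    1 / (Real.pi / 2 + Real.arctan (δ / h)) + 1 / (Real.pi / 2 - Real.arctan (δ / h)) =
      Real.pi * (1 / (Real.pi ^ 2 / 4 - Real.arctan (|δ| / h) ^ 2)) := by
  refine ⟨?_, Real.arctan_lt_pi_div_two _, ?_, ?_⟩
  · have : 0 ≤ |δ| / h := by positivity
    have h2 := Real.arctan_strictMono.monotone this
    rwa [Real.arctan_zero] at h2
  · rw [Real.cos_arctan]
    have h1 : (1 : ℝ) + (|δ| / h) ^ 2 = (h ^ 2 + δ ^ 2) / h ^ 2 := by
      rw [div_pow, sq_abs]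
      field_simp
    rw [h1, Real.sqrt_div' _ (by positivity), Real.sqrt_sq hh.le]
    simp
  · have hx : Real.arctan (|δ| / h) ^ 2 = Real.arctan (δ / h) ^ 2 := by
      rcases abs_cases δ with ⟨e, _⟩ | ⟨e, _⟩
      · rw [e]
      · rw [e, neg_div, Real.arctan_neg]
        ring
    rw [hx]
    set t := Real.arctan (δ / h) with ht
    have h1 : t < Real.pi / 2 := Real.arctan_lt_pi_div_two _
    have h2 : -(Real.pi / 2) < t := Real.neg_pi_div_two_lt_arctan _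
    have h3 : Real.pi / 2 + t ≠ 0 := by linarith
    have h4 : Real.pi / 2 - t ≠ 0 := by linarith
    have h5 : Real.pi ^ 2 / 4 - t ^ 2 = (Real.pi / 2 + t) * (Real.pi / 2 - t) := by ring
    rw [h5, one_div_add_one_div h3 h4, mul_one_div]
    congr 1
    ring

/-- the data of a quadrilateral with facing parallel sides -/
theorem data (hC : CgrStmt) (hR : RotStmt) (hM : MotStmt) (hS : SfoStmt) (v : Fin 4 → ℂ) (h : ℝ)
    (hv : CCW v) (i : Fin 4) (B δ ε : ℝ) (hh : 0 < h) (hB : 0 < B) (hB' : 0 < B + ε - δ)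
    (m : Mot (fun k => v (k + i)) (sq h B δ ε)) :
    Congruent (poly v) (poly (sq h B δ ε)) ∧
    Congruent (poly (sq h B δ ε)) (poly v) ∧
    ar v = h * (B + (ε - δ) / 2) ∧
    pm v = Real.sqrt (h ^ 2 + δ ^ 2) + B + Real.sqrt (h ^ 2 + ε ^ 2) + (B + ε - δ) ∧
    1 / an v 0 + 1 / an v 1 + 1 / an v 2 + 1 / an v 3 =
      Real.pi * (1 / (Real.pi ^ 2 / 4 - Real.arctan (|δ| / h) ^ 2) +
        1 / (Real.pi ^ 2 / 4 - Real.arctan (|ε| / h) ^ 2)) := by
  obtain ⟨r1, r2, r3, r4, r5⟩ := hR v hv i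
  obtain ⟨m1, m2, m3, m4, m5, m6⟩ := hM _ _ m
  obtain ⟨s1, s2, s3, s4, s5, s6, s7⟩ := hS h B δ ε hh hB hB'
  rw [r2] at m3
  refine ⟨m3, hC.2.1 _ _ m3, ?_, ?_, ?_⟩
  · rw [← r3, m4, s2]
  · rw [← r4, m5, s3]
  · have key : ∀ j, an v (j + i) = an (sq h B δ ε) j := fun j => by
      rw [← (r5 j).2, (m6 j).2]
    have hsum : 1 / an v 0 + 1 / an v 1 + 1 / an v 2 + 1 / an v 3 =
        1 / an v (0 + i) + 1 / an v (1 + i) + 1 / an v (2 + i) + 1 / an v (3 + i) := by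
      fin_cases i
      · simp
      · simp only [Fin.mk_one, Fin.isValue]
        have e1 : (0 : Fin 4) + 1 = 1 := rfl
        have e2 : (1 : Fin 4) + 1 = 2 := rfl
        have e3 : (2 : Fin 4) + 1 = 3 := rfl
        have e4 : (3 : Fin 4) + 1 = 0 := rfl
        rw [e1, e2, e3, e4]; ring
      · simp only [Fin.reduceFinMk]
        have e1 : (0 : Fin 4) + 2 = 2 := rfl
        have e2 : (1 : Fin 4) + 2 = 3 := rfl
        have e3 : (2 : Fin 4) + 2 = 0 := rfl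
        have e4 : (3 : Fin 4) + 2 = 1 := rfl
        rw [e1, e2, e3, e4]; ring
      · simp only [Fin.reduceFinMk]
        have e1 : (0 : Fin 4) + 3 = 3 := rfl
        have e2 : (1 : Fin 4) + 3 = 0 := rfl
        have e3 : (2 : Fin 4) + 3 = 1 := rfl
        have e4 : (3 : Fin 4) + 3 = 2 := rfl
        rw [e1, e2, e3, e4]; ring
    rw [hsum, key, key, key, key, s4, s5, s6, s7]
    have hd := (slant h δ hh).2.2.2
    have he := (slant h ε hh).2.2.2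
    rw [add_assoc, hd, he]
    ring

theorem arctan_abs_inj {h δ δ' : ℝ} (hh : 0 < h)
    (e : Real.arctan (|δ| / h) = Real.arctan (|δ'| / h)) : |δ| = |δ'| := by
  have h1 := Real.arctan_injective e
  field_simp at h1
  exact h1

/-- **FCS** -/
theorem fcs (hC : CgrStmt) (hR : RotStmt) (hM : MotStmt) (hS : SfoStmt) (hF : FceStmt) :
    FcsStmt := by
  intro hU v w h hv hw har hpm han hFv hFw
  obtain ⟨i, B, δ, ε, hh, hB, hB2, hB3, hB4, m⟩ := hFv
  obtain ⟨j, B', δ', ε', -, hC1, hC2, hC3, hC4, m'⟩ := hFw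
  obtain ⟨a1, a2, a3, a4, a5⟩ := data hC hR hM hS v h hv i B δ ε hh hB hB2 m
  obtain ⟨b1, b2, b3, b4, b5⟩ := data hC hR hM hS w h hw j B' δ' ε' hh hC1 hC2 m'
  have hm : B + (ε - δ) / 2 = B' + (ε' - δ') / 2 := by
    rw [a3, b3] at har
    exact mul_left_cancel₀ hh.ne' har
  have hsq : Real.sqrt (h ^ 2 + δ ^ 2) + Real.sqrt (h ^ 2 + ε ^ 2) =
      Real.sqrt (h ^ 2 + δ' ^ 2) + Real.sqrt (h ^ 2 + ε' ^ 2) := by
    rw [a4, b4] at hpm
    linarith
  rw [a5, b5] at han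
  have han' := mul_left_cancel₀ Real.pi_ne_zero han
  obtain ⟨x1, x2, x3, -⟩ := slant h δ hh
  obtain ⟨y1, y2, y3, -⟩ := slant h ε hh
  obtain ⟨x1', x2', x3', -⟩ := slant h δ' hh
  obtain ⟨y1', y2', y3', -⟩ := slant h ε' hh
  have hsec : 1 / Real.cos (Real.arctan (|δ| / h)) + 1 / Real.cos (Real.arctan (|ε| / h)) =
      1 / Real.cos (Real.arctan (|δ'| / h)) + 1 / Real.cos (Real.arctan (|ε'| / h)) := by
    rw [x3, y3, x3', y3', ← add_div, ← add_div, hsq]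
  have hor : (|δ| = |δ'| ∧ |ε| = |ε'|) ∨ (|δ| = |ε'| ∧ |ε| = |δ'|) := by
    rcases hU _ _ _ _ x1 x2 y1 y2 x1' x2' y1' y2' hsec han' with ⟨e1, e2⟩ | ⟨e1, e2⟩
    · exact Or.inl ⟨arctan_abs_inj hh e1, arctan_abs_inj hh e2⟩
    · exact Or.inr ⟨arctan_abs_inj hh e1, arctan_abs_inj hh e2⟩
  rcases hF h B δ ε B' δ' ε' hh hB hB2 hB3 hB4 hm hor with hc | hf
  · exact Or.inl (hC.2.2 _ _ _ a1 (hC.2.2 _ _ _ hc b2))
  · obtain ⟨h0, B0, δ0, ε0, c1, c2, c3, c4, c5, c6, c7⟩ := hf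
    exact Or.inr ⟨h0, B0, δ0, ε0, c1, c2, c3, c4, c5, hC.2.2 _ _ _ a1 c6,
      hC.2.2 _ _ _ b1 c7⟩

end Pool.Agent.QUD.H23
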