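import Pool.Agent.QUD.StmtsV

/-!
# Squad QUD (MP_5b0138_an), row TIT

Two items of the type A at the same vertex.
-/

set_option autoImplicit false

namespace Pool.Agent.QUD.H23

open MeasureTheory Filter Topology Real Set

/-- the data of a quadrilateral of type `Tq` with obtuse angles, after a rotation by half the angle -/
theorem half {a b c L l1 l2 l3 l4 : ℝ} (T : Tq a b c L l1 l2 l3 l4) (ha : π / 2 < a)
    (hb : π / 2 < b) (hc : π / 2 < c) :
    l1 = L / 2 ∧ l2 = L / 2 ∧ 0 < b - (π - a) / 2 ∧ b - (π - a) / 2 < π ∧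
    0 < c - (π - a) / 2 ∧ c - (π - a) / 2 < π ∧
    l4 * cos (b - (π - a) / 2) + l3 * cos (c - (π - a) / 2) = 2 * (L / 2) * sin (a / 2) ∧
    l4 * sin (b - (π - a) / 2) = l3 * sin (c - (π - a) / 2) ∧
    ar4 b c l1 l2 l3 l4 = (L / 2) * sin (a / 2) *
      ((L / 2) * cos (a / 2) + l4 * sin (b - (π - a) / 2)) := by
  obtain ⟨⟨-, ha2, -, hb2, hab⟩, ⟨-, -, -, hc2, hac⟩, hsum, p1, p2, p3, p4, e1, e2, cx, cy⟩ := T
  simp only at ha2 hb2 hab hc2 hac
  have sa : sv a = 1 := by unfold sv; rw [if_neg (not_lt.2 ha.le)]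
  have sb : sv b = 1 := by unfold sv; rw [if_neg (not_lt.2 hb.le)]
  have sc : sv c = 1 := by unfold sv; rw [if_neg (not_lt.2 hc.le)]
  rw [sa, sb, mul_one, mul_one] at e1
  rw [sa, sc, mul_one, mul_one] at e2
  subst e2
  obtain ⟨B, hB⟩ : ∃ B, B = b - (π - a) / 2 := ⟨_, rfl⟩
  obtain ⟨C, hC⟩ : ∃ C, C = c - (π - a) / 2 := ⟨_, rfl⟩
  obtain ⟨t, ht⟩ : ∃ t, t = a / 2 := ⟨_, rfl⟩
  rw [← hB, ← hC, ← ht]
  have eb : b = B + π / 2 - t := by rw [hB, ht]; ring
  have ec : c = C + π / 2 - t := by rw [hC, ht]; ring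
  have ea : a = 2 * t := by rw [ht]; ring
  have cb : cos b = sin t * cos B - cos t * sin B := by
    have : b = π / 2 - (t - B) := by rw [eb]; ring
    rw [this, cos_pi_div_two_sub, sin_sub]
  have sb' : sin b = cos t * cos B + sin t * sin B := by
    have : b = π / 2 - (t - B) := by rw [eb]; ring
    rw [this, sin_pi_div_two_sub, cos_sub]
  have sc' : sin c = cos t * cos C + sin t * sin C := by
    have : c = π / 2 - (t - C) := by rw [ec]; ring
    rw [this, sin_pi_div_two_sub, cos_sub]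
  have cac : cos (a + c) = -(sin t * cos C + cos t * sin C) := by
    have : a + c = π / 2 - (-(t + C)) := by rw [ea, ec]; ring
    rw [this, cos_pi_div_two_sub, sin_neg, sin_add]
  have sac : sin (a + c) = cos t * cos C - sin t * sin C := by
    have : a + c = π / 2 - (-(t + C)) := by rw [ea, ec]; ring
    rw [this, sin_pi_div_two_sub, cos_neg, cos_add]
  have ca : cos a = 1 - 2 * sin t ^ 2 := by
    rw [ea, cos_two_mul, cos_sq']; ring
  have sa' : sin a = 2 * sin t * cos t := by rw [ea, sin_two_mul]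
  have hsc : sin t ^ 2 + cos t ^ 2 = 1 := sin_sq_add_cos_sq t
  have e1' : l1 = L / 2 := e1.symm
  rw [e1', cb, ca, cac] at cx
  rw [sb', sa', sac] at cy
  have k1 : sin t * (l4 * cos B + l3 * cos C) - cos t * (l4 * sin B - l3 * sin C) =
      2 * (L / 2) * sin t ^ 2 := by linarith
  have k2 : cos t * (l4 * cos B + l3 * cos C) + sin t * (l4 * sin B - l3 * sin C) =
      2 * (L / 2) * sin t * cos t := by linarith
  have r1 : l4 * cos B + l3 * cos C = 2 * (L / 2) * sin t := by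
    linear_combination (-(l4 * cos B + l3 * cos C) + 2 * (L / 2) * sin t) * hsc +
      sin t * k1 + cos t * k2
  have r2 : l4 * sin B = l3 * sin C := by
    linear_combination (-(l4 * sin B - l3 * sin C)) * hsc - cos t * k1 + sin t * k2
  refine ⟨e1', rfl, ?_, ?_, ?_, ?_, r1, r2, ?_⟩
  · rw [hB]; linarith
  · rw [hB]; linarith
  · rw [hC]; linarith
  · rw [hC]; linarith
  · unfold ar4
    rw [e1', sb', sc']
    linear_combination (L / 2) / 2 * cos t * r1 - (L / 2) / 2 * sin t * r2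

/-- the algebra: a triangle with base `D`, height `h` and the sum `s` of the other sides -/
theorem tri {D h l3 l4 u u' m3 m4 v v' : ℝ} (hD : 0 < D) (hh : 0 < h) (p3 : 0 < l3) (p4 : 0 < l4)
    (q3 : 0 < m3) (q4 : 0 < m4) (e4 : l4 ^ 2 = u ^ 2 + h ^ 2) (e3 : l3 ^ 2 = u' ^ 2 + h ^ 2)
    (eu : u + u' = D)
    (f4 : m4 ^ 2 = v ^ 2 + h ^ 2) (f3 : m3 ^ 2 = v' ^ 2 + h ^ 2) (fv : v + v' = D)
    (hs : l3 + l4 = m3 + m4) :
    (u = v ∧ u' = v' ∧ l4 = m4 ∧ l3 = m3) ∨ (u = v' ∧ u' = v ∧ l4 = m3 ∧ l3 = m4) := by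
  obtain ⟨s, es⟩ : ∃ s, s = l3 + l4 := ⟨_, rfl⟩
  have es' : s = m3 + m4 := by rw [es, hs]
  have hlu : u < l4 := by nlinarith
  have hlu' : u' < l3 := by nlinarith
  have hsD : D < s := by rw [es, ← eu]; linarith
  have hs0 : 0 < s := by linarith
  -- the differences
  have d1 : (l4 - l3) * s = D * (2 * u - D) := by
    rw [es]
    have : u' = D - u := by linarith
    rw [this] at e3
    linear_combination e4 - e3
  have d2 : (m4 - m3) * s = D * (2 * v - D) := by
    rw [es']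
    have : v' = D - v := by linarith
    rw [this] at f3
    linear_combination f4 - f3
  have key : ∀ x y w : ℝ, x + y = s → (y - x) * s = D * w →
      x ^ 2 + y ^ 2 = (w ^ 2 + D ^ 2) / 2 + 2 * h ^ 2 →
      w ^ 2 * (s ^ 2 - D ^ 2) = s ^ 2 * (s ^ 2 - D ^ 2 - 4 * h ^ 2) := by
    intro x y w h1 h2 h3
    have h4 : ((y - x) * s) ^ 2 = D ^ 2 * w ^ 2 := by rw [h2]; ring
    have h5 : (x + y) ^ 2 = s ^ 2 := by rw [h1]
    linear_combination h4 + s ^ 2 * h5 - 2 * s ^ 2 * h3
  have k1 := key l3 l4 (2 * u - D) es.symm d1 (by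
    have : u' = D - u := by linarith
    rw [this] at e3
    linear_combination e4 + e3)
  have k2 := key m3 m4 (2 * v - D) es'.symm d2 (by
    have : v' = D - v := by linarith
    rw [this] at f3
    linear_combination f4 + f3)
  have hpos : 0 < s ^ 2 - D ^ 2 := by nlinarith
  have hw : (2 * u - D) ^ 2 = (2 * v - D) ^ 2 := by
    have := k1.trans k2.symm
    exact mul_right_cancel₀ hpos.ne' this
  rcases sq_eq_sq_iff_eq_or_eq_neg.1 hw with e | e
  · left
    have e' : u = v := by linarith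
    have hdd : (l4 - l3) * s = (m4 - m3) * s := by rw [d1, d2, e]
    have hdd' := mul_right_cancel₀ hs0.ne' hdd
    exact ⟨e', by linarith, by linarith, by linarith⟩
  · right
    have e' : u = v' := by linarith
    have hdd : (l4 - l3) * s = (m3 - m4) * s := by
      rw [d1, e]
      linear_combination d2
    have hdd' := mul_right_cancel₀ hs0.ne' hdd
    exact ⟨e', by linarith, by linarith, by linarith⟩

theorem cos_cancel {l x y : ℝ} (hl : 0 < l) (hx : 0 < x) (hx' : x < π) (hy : 0 < y) (hy' : y < π)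
    (h : l * cos x = l * cos y) : x = y :=
  injOn_cos ⟨hx.le, hx'.le⟩ ⟨hy.le, hy'.le⟩ (mul_left_cancel₀ hl.ne' h)

/-- **TIT** -/
theorem tit : TitStmt := by
  intro a b c b' c' L l1 l2 l3 l4 m1 m2 m3 m4 T T' har hpm ha hb hc hb' hc'
  obtain ⟨x1, x2, x3, x4, x5, x6, x7, x8, x9⟩ := half T ha hb hc
  obtain ⟨y1, y2, y3, y4, y5, y6, y7, y8, y9⟩ := half T' ha hb' hc'
  have p1 := T.p1
  have p3 := T.p3
  have p4 := T.p4
  have q3 := T'.p3
  have q4 := T'.p4
  have hL : 0 < L / 2 := by rw [← x1]; exact p1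
  have ha2 : a < π := T.kb.2.1
  have hS : 0 < sin (a / 2) := sin_pos_of_pos_of_lt_pi (by linarith [pi_pos]) (by linarith)
  rw [x9, y9] at har
  have hk : l4 * sin (b - (π - a) / 2) = m4 * sin (b' - (π - a) / 2) := by
    have := mul_left_cancel₀ (mul_pos hL hS).ne' har
    linarith
  have hh : 0 < l4 * sin (b - (π - a) / 2) := mul_pos p4 (sin_pos_of_pos_of_lt_pi x3 x4)
  have hs : l3 + l4 = m3 + m4 := by
    rw [x1, x2, y1, y2] at hpm
    linarith
  have sq1 : ∀ l x : ℝ, l ^ 2 = (l * cos x) ^ 2 + (l * sin x) ^ 2 := by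
    intro l x
    linear_combination (-l ^ 2) * sin_sq_add_cos_sq x
  have H := tri (D := 2 * (L / 2) * sin (a / 2)) (h := l4 * sin (b - (π - a) / 2)) (by positivity)
    hh p3 p4 q3 q4 (sq1 l4 (b - (π - a) / 2)) (by rw [x8]; exact sq1 l3 _) x7
    (by rw [hk]; exact sq1 m4 (b' - (π - a) / 2)) (by rw [hk, y8]; exact sq1 m3 _) y7 hs
  rcases H with ⟨h1, h2, h3, h4⟩ | ⟨h1, h2, h3, h4⟩
  · left
    rw [h3] at h1
    rw [h4] at h2
    have g1 := cos_cancel q4 x3 x4 y3 y4 h1
    have g2 := cos_cancel q3 x5 x6 y5 y6 h2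
    exact ⟨by linarith, by linarith⟩
  · right
    rw [h3] at h1
    rw [h4] at h2
    have g1 := cos_cancel q3 x3 x4 y5 y6 h1
    have g2 := cos_cancel q4 x5 x6 y3 y4 h2
    exact ⟨by linarith, by linarith⟩

end Pool.Agent.QUD.H23
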